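import Pool.Agent.W_3feab3_h56.Node

/-!
Pure part P6: the amortisation (11) for the list of all closed exams of the run.
-/

set_option autoImplicit false
set_option linter.unusedSectionVars false

namespace Pool.Agent.TL56

open Finset Classical

variable {V : Type*} [Fintype V]

/-- the set `N[c] - S` of an exam -/
noncomputable def exB (G : SimpleGraph V) (e : Finset V × V × V) : Finset V := US G e.1 e.2.2

/-- `vol B` = sum of `deg + 1` over `B` -/
noncomputable def vol (G : SimpleGraph V) (B : Finset V) : ℕ := ∑ v ∈ B, ((NS G ∅ v).card + 1)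

/-- the log of the closed exams `(S, x, c)` in the order of time -/
structure LogSpec (G : SimpleGraph V) (num : V → ℕ) (log : List (ℕ × (Finset V × V × V))) : Prop where
  closed : ∀ e ∈ log, Canon G num e.2.1 e.2.2.1 e.2.2.2 ∧ Closed G e.2.1 e.2.2.2
  same : log.Pairwise (fun e e' => e.1 = e'.1 → Disjoint (exB G e.2) (exB G e'.2))
  recd : log.Pairwise (fun e e' => e.2.2.2 = e'.2.2.2 →
    ¬ ∀ u ∈ exB G e.2, ∀ s, G.Adj u s → s ∉ exB G e.2 → s ∈ e'.2.1)

/-- pairwise disjoint nonempty sets meeting `M` are at most `|M|` many -/
theorem length_le_of_disjoint {α : Type*} (L : List α) (B : α → Finset V)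
    (h : L.Pairwise (fun a b => Disjoint (B a) (B b))) (M : Finset V)
    (hM : ∀ a ∈ L, ∃ v ∈ B a, v ∈ M) : L.length ≤ M.card := by
  induction L generalizing M with
  | nil => simp
  | cons a L ih =>
    rw [List.pairwise_cons] at h
    obtain ⟨v, hv, hvM⟩ := hM a (by simp)
    have := ih h.2 (M.erase v) ?_
    · rw [card_erase_of_mem hvM] at this
      have h1 : 1 ≤ M.card := card_pos.2 ⟨v, hvM⟩
      rw [List.length_cons]
      omega
    · intro b hb
      obtain ⟨w, hw, hwM⟩ := hM b (List.mem_cons_of_mem _ hb)
      refine ⟨w, hw, mem_erase.2 ⟨?_, hwM⟩⟩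
      intro hwv
      subst hwv
      exact (Finset.disjoint_left.1 (h.1 b hb)) hv hw

/-- sums over pairwise disjoint sets -/
theorem sum_le_of_disjoint {α : Type*} (L : List α) (B : α → Finset V) (f : V → ℕ)
    (h : L.Pairwise (fun a b => Disjoint (B a) (B b))) (M : Finset V)
    (hM : ∀ a ∈ L, B a ⊆ M) : (L.map (fun a => ∑ v ∈ B a, f v)).sum ≤ ∑ v ∈ M, f v := by
  induction L generalizing M with
  | nil => simp
  | cons a L ih =>
    rw [List.pairwise_cons] at h
    have := ih h.2 (M \ B a) ?_
    · rw [List.map_cons, List.sum_cons]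
      have h1 : ∑ v ∈ M \ B a, f v + ∑ v ∈ B a, f v = ∑ v ∈ M, f v :=
        Finset.sum_sdiff (hM a (by simp))
      omega
    · intro b hb v hv
      refine mem_sdiff.2 ⟨hM b (List.mem_cons_of_mem _ hb) hv, fun hva => ?_⟩
      exact (Finset.disjoint_left.1 (h.1 b hb)) hva hv

/-- splitting a list by a bounded label -/
theorem length_le_of_classes {α : Type*} (L : List α) (lab : α → ℕ) (σ N : ℕ)
    (hlab : ∀ a ∈ L, lab a < σ) (hN : ∀ i, (L.filter (fun a => decide (lab a = i))).length ≤ N) :
    L.length ≤ σ * N := by
  induction σ generalizing L with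
  | zero =>
    rcases L with _ | ⟨a, L⟩
    · simp
    · have := hlab a (by simp)
      omega
  | succ σ ih =>
    have h1 := List.length_eq_length_filter_add (l := L) (fun a => decide (lab a = σ))
    have h2 := hN σ
    have h3 := ih (L.filter (fun a => !decide (lab a = σ))) ?_ ?_
    · rw [Nat.succ_mul]
      omega
    · intro a ha
      rw [List.mem_filter] at ha
      have h4 := hlab a ha.1
      have h5 : lab a ≠ σ := by simpa using ha.2
      omega
    · intro i
      refine le_trans ?_ (hN i)
      rw [List.filter_filter]
      have : (L.filter (fun a => decide (lab a = i) && !decide (lab a = σ))).Sublist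
          (L.filter (fun a => decide (lab a = i))) := by
        rw [show (fun a => decide (lab a = i) && !decide (lab a = σ)) =
          (fun a => (!decide (lab a = σ)) && decide (lab a = i)) from by
            funext a; rw [Bool.and_comm]]
        rw [← List.filter_filter]
        exact List.filter_sublist
      exact this.length_le

/-- an exam whose component meets `M` -/
noncomputable def hits (G : SimpleGraph V) (M : Finset V) (e : ℕ × (Finset V × V × V)) : Bool :=
  decide (∃ v ∈ exB G e.2, v ∈ M)

/-- (11) first half: the exams meeting `M` are at most `σ |M|` -/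
theorem hits_bound {G : SimpleGraph V} {num : V → ℕ} {log : List (ℕ × (Finset V × V × V))}
    (h : LogSpec G num log) {σ : ℕ} (hσ : ∀ e ∈ log, e.1 < σ) (M : Finset V) :
    (log.filter (hits G M)).length ≤ σ * M.card := by
  refine length_le_of_classes _ (fun e => e.1) σ M.card ?_ ?_
  · intro e he
    exact hσ e (List.mem_filter.1 he).1
  · intro i
    refine length_le_of_disjoint _ (fun e => exB G e.2) ?_ M ?_
    · have h1 := (h.same.sublist (List.filter_sublist.trans List.filter_sublist :
        ((log.filter (hits G M)).filter (fun a => decide (a.1 = i))).Sublist log))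
      have h2 : ∀ e ∈ (log.filter (hits G M)).filter (fun a => decide (a.1 = i)), e.1 = i := by
        intro e he
        rw [List.mem_filter] at he
        simpa using he.2
      refine List.Pairwise.imp_of_mem ?_ h1
      intro a b ha hb hab
      exact hab ((h2 a ha).trans (h2 b hb).symm)
    · intro e he
      rw [List.mem_filter, List.mem_filter] at he
      simpa [hits] using he.1.2

/-- (11) second half: the exams avoiding `M` have pairwise disjoint components -/
theorem avoid_pairwise {G : SimpleGraph V} {num : V → ℕ} (hnum : Function.Injective num)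
    {log : List (ℕ × (Finset V × V × V))} (h : LogSpec G num log) (M : Finset V)
    (hM : ∀ e ∈ log, e.2.1 ⊆ M) :
    (log.filter (fun e => !hits G M e)).Pairwise (fun e e' => Disjoint (exB G e.2) (exB G e'.2)) := by
  have h1 := h.recd.sublist (List.filter_sublist : (log.filter (fun e => !hits G M e)).Sublist log)
  refine List.Pairwise.imp_of_mem ?_ h1
  intro a b ha hb hab
  rw [List.mem_filter] at ha hb
  have ha2 : ∀ v ∈ exB G a.2, v ∉ M := by
    have := ha.2
    simpa [hits] using this
  have hb2 : ∀ v ∈ exB G b.2, v ∉ M := by
    have := hb.2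
    simpa [hits] using this
  rw [Finset.disjoint_left]
  intro v hv hv'
  obtain ⟨ca, cla⟩ := h.closed a ha.1
  obtain ⟨cb, clb⟩ := h.closed b hb.1
  obtain ⟨e1, e2, e3⟩ := exams_disjoint hnum ca cb cla clb
    (fun w hw hw' => ha2 w hw (hM b hb.1 hw')) (fun w hw hw' => hb2 w hw (hM a ha.1 hw')) hv hv'
  exact hab e1 (fun u hu s hus hs => (e3 u hu s hus hs).2)

theorem avoid_vol {G : SimpleGraph V} {num : V → ℕ} (hnum : Function.Injective num)
    {log : List (ℕ × (Finset V × V × V))} (h : LogSpec G num log) (M : Finset V)
    (hM : ∀ e ∈ log, e.2.1 ⊆ M) :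
    ((log.filter (fun e => !hits G M e)).map (fun e => vol G (exB G e.2))).sum ≤ vol G univ := by
  have := sum_le_of_disjoint (log.filter (fun e => !hits G M e)) (fun e => exB G e.2)
    (fun v => (NS G ∅ v).card + 1) (avoid_pairwise hnum h M hM) univ (fun _ _ => subset_univ _)
  exact this

theorem avoid_length {G : SimpleGraph V} {num : V → ℕ} (hnum : Function.Injective num)
    {log : List (ℕ × (Finset V × V × V))} (h : LogSpec G num log) (M A : Finset V)
    (hM : ∀ e ∈ log, e.2.1 ⊆ M) (hA : ∀ e ∈ log, e.2.2.2 ∈ A) :
    (log.filter (fun e => !hits G M e)).length ≤ A.card := by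
  refine length_le_of_disjoint _ (fun e => exB G e.2) (avoid_pairwise hnum h M hM) A ?_
  intro e he
  rw [List.mem_filter] at he
  have hc := (h.closed e he.1).1
  have hcS : e.2.2.2 ∉ e.2.1 := ((mem_US _ _ _ _).1 hc.2.1).2
  exact ⟨e.2.2.2, self_mem_US hcS, hA e he.1⟩

/-- (11) the total cost of the closed exams: cost `a vol(B) + b` in general and at most `e` -/
theorem log_cost {G : SimpleGraph V} {num : V → ℕ} (hnum : Function.Injective num)
    {log : List (ℕ × (Finset V × V × V))} (h : LogSpec G num log) {σ : ℕ}
    (hσ : ∀ e ∈ log, e.1 < σ) (M A : Finset V) (hM : ∀ e ∈ log, e.2.1 ⊆ M)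
    (hA : ∀ e ∈ log, e.2.2.2 ∈ A) (cost : ℕ × (Finset V × V × V) → ℕ) (a b c : ℕ)
    (hc1 : ∀ e ∈ log, cost e ≤ a * vol G (exB G e.2) + b) (hc2 : ∀ e ∈ log, cost e ≤ c) :
    (log.map cost).sum ≤ a * vol G univ + b * A.card + c * (σ * M.card) := by
  have split : ∀ L : List (ℕ × (Finset V × V × V)), (L.map cost).sum =
      ((L.filter (fun e => !hits G M e)).map cost).sum + ((L.filter (hits G M)).map cost).sum := by
    intro L
    induction L with
    | nil => simp
    | cons e L ih =>
      rw [List.filter_cons, List.filter_cons]
      by_cases he : hits G M e = true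
      · simp only [he, Bool.not_true, Bool.false_eq_true, if_false, if_true, List.map_cons,
          List.sum_cons, ih]
        omega
      · have he' : hits G M e = false := by simpa using he
        simp only [he', Bool.not_false, if_true, Bool.false_eq_true, if_false, List.map_cons,
          List.sum_cons, ih]
        omega
  have hb1 : ∀ L : List (ℕ × (Finset V × V × V)), (∀ e ∈ L, e ∈ log) → (L.map cost).sum ≤
      a * (L.map (fun e => vol G (exB G e.2))).sum + b * L.length := by
    intro L
    induction L with
    | nil => simp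
    | cons e L ih =>
      intro hL
      have h1 := ih (fun e' he' => hL e' (List.mem_cons_of_mem _ he'))
      have h2 := hc1 e (hL e (by simp))
      simp only [List.map_cons, List.sum_cons, List.length_cons]
      nlinarith
  have hb2 : ∀ L : List (ℕ × (Finset V × V × V)), (∀ e ∈ L, e ∈ log) → (L.map cost).sum ≤
      c * L.length := by
    intro L
    induction L with
    | nil => simp
    | cons e L ih =>
      intro hL
      have h1 := ih (fun e' he' => hL e' (List.mem_cons_of_mem _ he'))
      have h2 := hc2 e (hL e (by simp))
      simp only [List.map_cons, List.sum_cons, List.length_cons]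
      nlinarith
  rw [split log]
  have h1 := hb1 (log.filter (fun e => !hits G M e)) (fun e he => (List.mem_filter.1 he).1)
  have h2 := hb2 (log.filter (hits G M)) (fun e he => (List.mem_filter.1 he).1)
  have h3 := avoid_vol hnum h M hM
  have h4 := avoid_length hnum h M A hM hA
  have h5 := hits_bound h hσ M
  have h6 : a * ((log.filter (fun e => !hits G M e)).map (fun e => vol G (exB G e.2))).sum ≤
    a * vol G univ := Nat.mul_le_mul_left _ h3
  have h7 : b * (log.filter (fun e => !hits G M e)).length ≤ b * A.card := Nat.mul_le_mul_left _ h4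
  have h8 : c * (log.filter (hits G M)).length ≤ c * (σ * M.card) := Nat.mul_le_mul_left _ h5
  omega

end Pool.Agent.TL56
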