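import Mathlib

/-!
Pure part P1: the test pair, Lemma 1, Lemma 2 and the branching lemma.
-/

set_option autoImplicit false
set_option linter.unusedSectionVars false

namespace Pool.Agent.TL56

open Finset Classical

variable {V : Type*} [Fintype V]

/-- `G - S` on the same vertex set: the members of `S` become isolated. -/
def GS (G : SimpleGraph V) (S : Finset V) : SimpleGraph V where
  Adj a b := G.Adj a b ∧ a ∉ S ∧ b ∉ S
  symm := ⟨fun _ _ h => ⟨h.1.symm, h.2.2, h.2.1⟩⟩
  loopless := ⟨fun _ h => G.loopless.irrefl _ h.1⟩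

/-- `y` lies in the component of `x` in `G - S` -/
def Rc (G : SimpleGraph V) (S : Finset V) (x y : V) : Prop := (GS G S).Reachable x y

/-- the component of `x` in `G - S` has the universal vertex `t` -/
def Univ (G : SimpleGraph V) (S : Finset V) (x t : V) : Prop :=
  t ∉ S ∧ Rc G S x t ∧ ∀ y, Rc G S x y → y = t ∨ G.Adj t y

/-- the component of `x` in `G - S` is dominated -/
def Dom (G : SimpleGraph V) (S : Finset V) (x : V) : Prop := ∃ t, Univ G S x t

/-- `S` is a solution -/
def IsSol (G : SimpleGraph V) (k : ℕ) (S : Finset V) : Prop :=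
  S.card ≤ k ∧ ∀ x, x ∉ S → Dom G S x

/-- some solution contains `S'` -/
def Sol (G : SimpleGraph V) (k : ℕ) (S' : Finset V) : Prop := ∃ S, S' ⊆ S ∧ IsSol G k S

/-- `N(x) - S` -/
noncomputable def NS (G : SimpleGraph V) (S : Finset V) (x : V) : Finset V :=
  univ.filter (fun y => G.Adj x y ∧ y ∉ S)

/-- `|N(x) - S|` -/
noncomputable def dp (G : SimpleGraph V) (S : Finset V) (x : V) : ℕ := (NS G S x).card

/-- `N[c] - S` -/
noncomputable def US (G : SimpleGraph V) (S : Finset V) (c : V) : Finset V :=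
  univ.filter (fun y => (y = c ∨ G.Adj c y) ∧ y ∉ S)

/-- `(x, c)` is a test pair: `c` is in `N[x] - S` and has the largest `dp` there -/
def Pair (G : SimpleGraph V) (S : Finset V) (x c : V) : Prop :=
  x ∉ S ∧ c ∈ US G S x ∧ ∀ t ∈ US G S x, dp G S t ≤ dp G S c

/-- no edge leaves `N[c] - S` in `G - S` -/
def Closed (G : SimpleGraph V) (S : Finset V) (c : V) : Prop :=
  ∀ u ∈ US G S c, ∀ y, G.Adj u y → y ∉ S → y ∈ US G S c

theorem mem_NS (G : SimpleGraph V) (S : Finset V) (x y : V) :
    y ∈ NS G S x ↔ G.Adj x y ∧ y ∉ S := by simp [NS]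

theorem mem_US (G : SimpleGraph V) (S : Finset V) (c y : V) :
    y ∈ US G S c ↔ (y = c ∨ G.Adj c y) ∧ y ∉ S := by simp [US]

theorem card_US {G : SimpleGraph V} {S : Finset V} {c : V} (hc : c ∉ S) :
    (US G S c).card = dp G S c + 1 := by
  have : US G S c = insert c (NS G S c) := by
    ext y
    simp only [mem_US, mem_insert, mem_NS]
    constructor
    · rintro ⟨h | h, h2⟩
      · exact Or.inl h
      · exact Or.inr ⟨h, h2⟩
    · rintro (h | h)
      · subst h; exact ⟨Or.inl rfl, hc⟩
      · exact ⟨Or.inr h.1, h.2⟩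
  rw [this, card_insert_of_notMem, dp]
  rw [mem_NS]
  exact fun h => G.loopless.irrefl _ h.1

theorem Rc.refl (G : SimpleGraph V) (S : Finset V) (x : V) : Rc G S x x := SimpleGraph.Reachable.refl _

theorem Rc.symm {G : SimpleGraph V} {S : Finset V} {x y : V} (h : Rc G S x y) : Rc G S y x :=
  SimpleGraph.Reachable.symm h

theorem Rc.trans {G : SimpleGraph V} {S : Finset V} {x y z : V} (h : Rc G S x y)
    (h' : Rc G S y z) : Rc G S x z := SimpleGraph.Reachable.trans h h'

theorem Rc.adj {G : SimpleGraph V} {S : Finset V} {x y : V} (h : G.Adj x y) (hx : x ∉ S)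
    (hy : y ∉ S) : Rc G S x y :=
  SimpleGraph.Adj.reachable (show (GS G S).Adj x y from ⟨h, hx, hy⟩)

/-- a set containing `x` and closed under adjacency in `G - S` contains the component of `x` -/
theorem Rc.closed {G : SimpleGraph V} {S : Finset V} {x y : V} (h : Rc G S x y) (P : V → Prop)
    (hx : P x) (hP : ∀ a b, P a → G.Adj a b → a ∉ S → b ∉ S → P b) : P y := by
  obtain ⟨w⟩ := h
  induction w with
  | nil => exact hx
  | cons ha _ ih => exact ih (hP _ _ hx ha.1 ha.2.1 ha.2.2)

theorem Rc.notMem {G : SimpleGraph V} {S : Finset V} {x y : V} (h : Rc G S x y) (hx : x ∉ S) :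
    y ∉ S := h.closed (fun v => v ∉ S) hx (fun _ _ _ _ _ h => h)

theorem Rc.mono {G : SimpleGraph V} {S T : Finset V} (hST : S ⊆ T) {x y : V} (h : Rc G T x y) :
    Rc G S x y := by
  obtain ⟨w⟩ := h
  induction w with
  | nil => exact Rc.refl _ _ _
  | cons ha _ ih => exact (Rc.adj ha.1 (fun h => ha.2.1 (hST h)) (fun h => ha.2.2 (hST h))).trans ih

theorem Rc.us {G : SimpleGraph V} {S : Finset V} {c u : V} (hc : c ∉ S) (hu : u ∈ US G S c) :
    Rc G S c u := by
  rw [mem_US] at hu
  rcases hu.1 with h | h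
  · subst h; exact Rc.refl _ _ _
  · exact Rc.adj h hc hu.2

/-- the component of `x` as a finset -/
noncomputable def cp (G : SimpleGraph V) (S : Finset V) (x : V) : Finset V :=
  univ.filter (fun y => Rc G S x y)

theorem mem_cp (G : SimpleGraph V) (S : Finset V) (x y : V) : y ∈ cp G S x ↔ Rc G S x y := by
  simp [cp]

theorem cp_subset_US {G : SimpleGraph V} {S : Finset V} {x t : V} (hx : x ∉ S)
    (ht : Univ G S x t) : cp G S x ⊆ US G S t := by
  intro y hy
  rw [mem_cp] at hy
  rw [mem_US]
  exact ⟨ht.2.2 y hy, hy.notMem hx⟩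

theorem Univ.mem_US {G : SimpleGraph V} {S S' : Finset V} {x t : V} (hS : S' ⊆ S)
    (ht : Univ G S x t) : t ∈ US G S' x := by
  rw [TL56.mem_US]
  refine ⟨?_, fun h => ht.1 (hS h)⟩
  rcases ht.2.2 x (Rc.refl _ _ _) with h | h
  · exact Or.inl h.symm
  · exact Or.inr h.symm

/-- size of a dominated component of `G - S`, measured in `G - S'` with `S' ⊆ S` -/
theorem card_cp_le {G : SimpleGraph V} {S S' : Finset V} {x c t : V} (hS : S' ⊆ S) (hx : x ∉ S)
    (hp : Pair G S' x c) (ht : Univ G S x t) : (cp G S x).card ≤ dp G S' c + 1 := by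
  have h1 : (cp G S x).card ≤ (US G S' t).card := by
    refine card_le_card ?_
    intro y hy
    have := cp_subset_US hx ht hy
    rw [TL56.mem_US] at this ⊢
    exact ⟨this.1, fun h => this.2 (hS h)⟩
  rw [card_US (fun h => ht.1 (hS h))] at h1
  have h2 := hp.2.2 t (ht.mem_US hS)
  omega

/-- (1) the component of `x` is dominated iff `N[c] - S` is closed -/
theorem dom_iff_closed {G : SimpleGraph V} {S : Finset V} {x c : V} (hp : Pair G S x c) :
    Dom G S x ↔ Closed G S c := by
  obtain ⟨hx, hc, hmax⟩ := hp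
  have hcS : c ∉ S := ((mem_US _ _ _ _).1 hc).2
  have hxc : Rc G S x c := Rc.us hx hc
  constructor
  · rintro ⟨t, ht⟩
    have h1 : (cp G S x).card ≤ dp G S c + 1 :=
      card_cp_le (Subset.refl S) hx ⟨hx, hc, hmax⟩ ht
    have h2 : US G S c ⊆ cp G S x := fun u hu => (mem_cp _ _ _ _).2 (hxc.trans (Rc.us hcS hu))
    have h3 : US G S c = cp G S x := eq_of_subset_of_card_le h2 (by rw [card_US hcS]; exact h1)
    intro u hu y huy hy
    rw [h3, mem_cp] at hu ⊢
    exact hu.trans (Rc.adj huy (hu.notMem hx) hy)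
  · intro hcl
    refine ⟨c, hcS, hxc, ?_⟩
    intro y hy
    have hxU : x ∈ US G S c := by
      rw [mem_US] at hc ⊢
      refine ⟨?_, hx⟩
      rcases hc.1 with h | h
      · exact Or.inl h.symm
      · exact Or.inr h.symm
    have : y ∈ US G S c := hy.closed (fun v => v ∈ US G S c) hxU
      (fun a b ha hab _ hb => hcl a ha b hab hb)
    exact ((mem_US _ _ _ _).1 this).1

/-- (2) Lemma 1 -/
theorem lemma1 {G : SimpleGraph V} {k : ℕ} {S S' : Finset V} {x c : V} (hS : S' ⊆ S)
    (hsol : IsSol G k S) (hp : Pair G S' x c) (hx : x ∉ S) (hc : c ∉ S) :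
    (cp G S x \ US G S' c).card ≤ (US G S' c ∩ S).card := by
  obtain ⟨t, ht⟩ := hsol.2 x hx
  have h1 : (cp G S x).card ≤ dp G S' c + 1 := card_cp_le hS hx hp ht
  have hcS' : c ∉ S' := fun h => hc (hS h)
  have hxc : Rc G S x c := by
    have := (mem_US _ _ _ _).1 hp.2.1
    rcases this.1 with h | h
    · subst h; exact Rc.refl _ _ _
    · exact Rc.adj h hx hc
  have h2 : US G S' c \ S ⊆ cp G S x := by
    intro u hu
    rw [mem_sdiff, mem_US] at hu
    rw [mem_cp]
    refine hxc.trans (Rc.us hc ?_)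
    rw [mem_US]
    exact ⟨hu.1.1, hu.2⟩
  have h3 : (US G S' c \ S).card + (cp G S x \ US G S' c).card ≤ (cp G S x).card := by
    rw [← card_union_of_disjoint]
    · refine card_le_card ?_
      intro y hy
      rw [mem_union] at hy
      rcases hy with h | h
      · exact h2 h
      · exact (mem_sdiff.1 h).1
    · rw [Finset.disjoint_left]
      intro y hy hy2
      exact (mem_sdiff.1 hy2).2 (mem_sdiff.1 hy).1
  have h4 : (US G S' c \ S).card + (US G S' c ∩ S).card = (US G S' c).card :=
    card_sdiff_add_card_inter _ _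
  rw [card_US hcS'] at h4
  omega

/-- an arc leaving `N[c] - S` in `G - S` -/
def Arc (G : SimpleGraph V) (S : Finset V) (c u y : V) : Prop :=
  u ∈ US G S c ∧ y ∉ US G S c ∧ y ∉ S ∧ G.Adj u y

/-- a matching of arcs leaving `N[c] - S` -/
def Match (G : SimpleGraph V) (S : Finset V) (c : V) (M : List (V × V)) : Prop :=
  (M.map Prod.fst).Nodup ∧ (M.map Prod.snd).Nodup ∧ ∀ e ∈ M, Arc G S c e.1 e.2

theorem length_le_card {L : List V} (hL : L.Nodup) {A : Finset V} (h : ∀ y ∈ L, y ∈ A) :
    L.length ≤ A.card := by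
  rw [← List.toFinset_card_of_nodup hL]
  exact card_le_card (fun y hy => h y (List.mem_toFinset.1 hy))

theorem rc_center {G : SimpleGraph V} {S S' : Finset V} {x c : V} (hp : Pair G S' x c)
    (hx : x ∉ S) (hc : c ∉ S) : Rc G S x c := by
  have := (mem_US _ _ _ _).1 hp.2.1
  rcases this.1 with h | h
  · subst h; exact Rc.refl _ _ _
  · exact Rc.adj h hx hc

theorem rc_us {G : SimpleGraph V} {S S' : Finset V} {x c u : V} (hp : Pair G S' x c)
    (hx : x ∉ S) (hc : c ∉ S) (hu : u ∈ US G S' c) (huS : u ∉ S) : Rc G S x u := by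
  refine (rc_center hp hx hc).trans (Rc.us hc ?_)
  rw [mem_US] at hu ⊢
  exact ⟨hu.1, huS⟩

/-- the part of `S` in `U` and the part outside `U` -/
theorem card_parts {G : SimpleGraph V} {k : ℕ} {S S' : Finset V} {c : V} (hS : S' ⊆ S)
    (hk : S.card ≤ k) :
    (US G S' c ∩ S).card + ((S \ S') \ US G S' c).card ≤ k - S'.card := by
  have h1 : (US G S' c ∩ S).card + ((S \ S') \ US G S' c).card ≤ (S \ S').card := by
    rw [← card_union_of_disjoint]
    · refine card_le_card ?_
      intro y hy
      rw [mem_union] at hy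
      rcases hy with h | h
      · rw [mem_inter, mem_US] at h
        exact mem_sdiff.2 ⟨h.2, h.1.2⟩
      · exact (mem_sdiff.1 h).1
    · rw [Finset.disjoint_left]
      intro y hy hy2
      exact (mem_sdiff.1 hy2).2 (mem_inter.1 hy).1
  have h2 : (S \ S').card = S.card - S'.card := card_sdiff_of_subset hS
  omega

/-- (3) Lemma 2 -/
theorem lemma2 {G : SimpleGraph V} {k : ℕ} {S S' : Finset V} {x c : V} {M : List (V × V)}
    (hp : Pair G S' x c) (hM : Match G S' c M) (hlen : 2 * (k - S'.card) + 1 ≤ M.length)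
    (hS : S' ⊆ S) (hsol : IsSol G k S) : x ∈ S ∨ c ∈ S := by
  by_contra hcon
  rw [not_or] at hcon
  obtain ⟨hx, hc⟩ := hcon
  have hl1 := lemma1 hS hsol hp hx hc
  have hpart := card_parts (G := G) (c := c) hS hsol.1
  have e1 : M.length = (M.filter (fun e => decide (e.1 ∈ S))).length
      + (M.filter (fun e => !decide (e.1 ∈ S))).length := by
    have := List.length_eq_length_filter_add (l := M) (fun e => decide (e.1 ∈ S))
    exact this
  have e2 : (M.filter (fun e => !decide (e.1 ∈ S))).length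
      = ((M.filter (fun e => !decide (e.1 ∈ S))).filter (fun e => decide (e.2 ∈ S))).length
      + ((M.filter (fun e => !decide (e.1 ∈ S))).filter (fun e => !decide (e.2 ∈ S))).length :=
    List.length_eq_length_filter_add (l := (M.filter (fun e => !decide (e.1 ∈ S))))
      (fun e => decide (e.2 ∈ S))
  have b1 : (M.filter (fun e => decide (e.1 ∈ S))).length ≤ (US G S' c ∩ S).card := by
    have := length_le_card (L := (M.filter (fun e => decide (e.1 ∈ S))).map Prod.fst)
      ((List.filter_sublist.map _).nodup hM.1) (A := US G S' c ∩ S) ?_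
    · simpa using this
    · intro y hy
      rw [List.mem_map] at hy
      obtain ⟨e, he, rfl⟩ := hy
      rw [List.mem_filter, decide_eq_true_eq] at he
      exact mem_inter.2 ⟨(hM.2.2 e he.1).1, he.2⟩
  have b2 : ((M.filter (fun e => !decide (e.1 ∈ S))).filter (fun e => decide (e.2 ∈ S))).length
      ≤ ((S \ S') \ US G S' c).card := by
    have := length_le_card (L := ((M.filter (fun e => !decide (e.1 ∈ S))).filter
      (fun e => decide (e.2 ∈ S))).map Prod.snd)
      (((List.filter_sublist.trans List.filter_sublist).map _).nodup hM.2.1)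
      (A := (S \ S') \ US G S' c) ?_
    · simpa using this
    · intro y hy
      rw [List.mem_map] at hy
      obtain ⟨e, he, rfl⟩ := hy
      rw [List.mem_filter, decide_eq_true_eq, List.mem_filter] at he
      have := hM.2.2 e he.1.1
      exact mem_sdiff.2 ⟨mem_sdiff.2 ⟨he.2, this.2.2.1⟩, this.2.1⟩
  have b3 : ((M.filter (fun e => !decide (e.1 ∈ S))).filter (fun e => !decide (e.2 ∈ S))).length
      ≤ (cp G S x \ US G S' c).card := by
    have := length_le_card (L := ((M.filter (fun e => !decide (e.1 ∈ S))).filter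
      (fun e => !decide (e.2 ∈ S))).map Prod.snd)
      (((List.filter_sublist.trans List.filter_sublist).map _).nodup hM.2.1)
      (A := cp G S x \ US G S' c) ?_
    · simpa using this
    · intro y hy
      rw [List.mem_map] at hy
      obtain ⟨e, he, rfl⟩ := hy
      rw [List.mem_filter, List.mem_filter] at he
      have h1 : e.1 ∉ S := by simpa using he.1.2
      have h2 : e.2 ∉ S := by simpa using he.2
      have := hM.2.2 e he.1.1
      refine mem_sdiff.2 ⟨?_, this.2.1⟩
      rw [mem_cp]
      exact (rc_us hp hx hc this.1 h1).trans (Rc.adj this.2.2.2 h1 h2)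
  omega

/-- the result of the scan: `XU ⊆ U`, the list `R` outside `U` grows along edges from `XU` and
earlier entries, and every arc leaving `U` starts in `XU` or ends in `R` -/
structure Scan (G : SimpleGraph V) (S' : Finset V) (c : V) (XU : Finset V) (R : List V) : Prop where
  xu : ∀ u ∈ XU, u ∈ US G S' c
  nodup : R.Nodup
  out : ∀ y ∈ R, y ∉ US G S' c ∧ y ∉ S'
  grow : ∀ (i : ℕ) (h : i < R.length), ∃ p, (p ∈ XU ∨ p ∈ R.take i) ∧ G.Adj p (R[i])
  cover : ∀ u y, Arc G S' c u y → u ∈ XU ∨ y ∈ R

/-- every neighbour outside `S' ∪ U` of a member of `XU ∪ R` is in `R` -/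
def Complete (G : SimpleGraph V) (S' : Finset V) (c : V) (XU : Finset V) (R : List V) : Prop :=
  ∀ p, (p ∈ XU ∨ p ∈ R) → ∀ y, G.Adj p y → y ∉ S' → y ∉ US G S' c → y ∈ R

theorem Scan.mem_comp {G : SimpleGraph V} {S S' : Finset V} {x c : V} {XU : Finset V} {R : List V}
    (hsc : Scan G S' c XU R) (hp : Pair G S' x c) (hx : x ∉ S) (hc : c ∉ S)
    (hXU : ∀ u ∈ XU, u ∉ S) (hR : ∀ u ∈ R, u ∉ S) : ∀ y ∈ R, Rc G S x y := by
  have key : ∀ (i : ℕ) (h : i < R.length), Rc G S x (R[i]) := by
    intro i
    induction i using Nat.strong_induction_on with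
    | _ i ih =>
      intro h
      obtain ⟨p, hp1, hp2⟩ := hsc.grow i h
      have hRi : R[i] ∉ S := hR _ (List.getElem_mem h)
      rcases hp1 with h1 | h1
      · exact (rc_us hp hx hc (hsc.xu p h1) (hXU p h1)).trans (Rc.adj hp2 (hXU p h1) hRi)
      · obtain ⟨j, hj, rfl⟩ := List.mem_take_iff_getElem.1 h1
        have hj' : j < i ∧ j < R.length := by
          constructor <;> omega
        exact (ih j hj'.1 hj'.2).trans (Rc.adj hp2 (hR _ (List.getElem_mem hj'.2)) hRi)
  intro y hy
  obtain ⟨i, hi, rfl⟩ := List.mem_iff_getElem.1 hy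
  exact key i hi

/-- (4) the branching lemma -/
theorem branch {G : SimpleGraph V} {k : ℕ} {S' : Finset V} {x c : V} {XU : Finset V} {R : List V}
    (hp : Pair G S' x c) (hsc : Scan G S' c XU R) (hne : R ≠ [])
    (hend : k - S'.card < R.length ∨ Complete G S' c XU R) (hsol : Sol G k S') :
    ∃ y, (y = x ∨ y = c ∨ y ∈ XU ∨ y ∈ R) ∧ Sol G k (insert y S') := by
  by_contra hcon
  push Not at hcon
  obtain ⟨S, hS, hS2⟩ := hsol
  have hav : ∀ y, (y = x ∨ y = c ∨ y ∈ XU ∨ y ∈ R) → y ∉ S := by
    intro y hy hyS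
    exact hcon y hy ⟨S, insert_subset hyS hS, hS2⟩
  have hx : x ∉ S := hav x (Or.inl rfl)
  have hc : c ∉ S := hav c (Or.inr (Or.inl rfl))
  have hXU : ∀ u ∈ XU, u ∉ S := fun u hu => hav u (Or.inr (Or.inr (Or.inl hu)))
  have hR : ∀ u ∈ R, u ∉ S := fun u hu => hav u (Or.inr (Or.inr (Or.inr hu)))
  have hl1 := lemma1 hS hS2 hp hx hc
  have hpart := card_parts (G := G) (c := c) hS hS2.1
  have hRc := hsc.mem_comp hp hx hc hXU hR
  have hRlen : R.length ≤ (cp G S x \ US G S' c).card :=
    length_le_card hsc.nodup (fun y hy => mem_sdiff.2 ⟨(mem_cp _ _ _ _).2 (hRc y hy),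
      (hsc.out y hy).1⟩)
  rcases hend with hbig | hcomp
  · omega
  -- the component of `c` in `G - S'` is `B = U ∪ R`
  set B : Finset V := US G S' c ∪ R.toFinset with hB
  have hBcl : ∀ b ∈ B, ∀ a, G.Adj b a → a ∉ S' → a ∈ B := by
    intro b hb a hab ha
    by_cases haU : a ∈ US G S' c
    · exact mem_union_left _ haU
    refine mem_union_right _ (List.mem_toFinset.2 ?_)
    rw [hB, mem_union, List.mem_toFinset] at hb
    rcases hb with hb | hb
    · rcases hsc.cover b a ⟨hb, haU, ha, hab⟩ with h | h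
      · exact hcomp b (Or.inl h) a hab ha haU
      · exact h
    · exact hcomp b (Or.inr hb) a hab ha haU
  have hBS' : ∀ b ∈ B, b ∉ S' := by
    intro b hb
    rw [hB, mem_union, List.mem_toFinset] at hb
    rcases hb with hb | hb
    · exact ((mem_US _ _ _ _).1 hb).2
    · exact (hsc.out b hb).2
  have hBcard : B.card = (US G S' c).card + R.length := by
    rw [hB, card_union_of_disjoint, List.toFinset_card_of_nodup hsc.nodup]
    rw [Finset.disjoint_left]
    intro y hy hy2
    exact (hsc.out y (List.mem_toFinset.1 hy2)).1 hy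
  have hcS' : c ∉ S' := fun h => hc (hS h)
  obtain ⟨t, ht⟩ := hS2.2 x hx
  have hK : (cp G S x).card ≤ (US G S' c).card := by
    rw [card_US hcS']
    exact card_cp_le hS hx hp ht
  have hBK : (B \ S).card ≤ (cp G S x).card := by
    refine card_le_card ?_
    intro y hy
    rw [mem_sdiff, hB, mem_union, List.mem_toFinset] at hy
    rw [mem_cp]
    rcases hy.1 with h | h
    · exact rc_us hp hx hc h hy.2
    · exact hRc y h
  have hBS : (B \ S).card + (B ∩ S).card = B.card := card_sdiff_add_card_inter _ _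
  have hRin : R.length ≤ (S ∩ B).card := by
    rw [inter_comm]; omega
  -- the exchanged solution
  set T : Finset V := (S \ B) ∪ R.toFinset with hT
  have hTcard : T.card ≤ S.card := by
    have h1 : T.card ≤ (S \ B).card + R.toFinset.card := card_union_le _ _
    rw [List.toFinset_card_of_nodup hsc.nodup] at h1
    have h2 : (S \ B).card + (S ∩ B).card = S.card := card_sdiff_add_card_inter _ _
    omega
  have hST : S' ⊆ T := by
    intro y hy
    exact mem_union_left _ (mem_sdiff.2 ⟨hS hy, fun h => hBS' y h hy⟩)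
  have hcU : c ∈ US G S' c := (mem_US _ _ _ _).2 ⟨Or.inl rfl, hcS'⟩
  have hUT : ∀ u ∈ US G S' c, u ∉ T := by
    intro u hu hT'
    rw [hT, mem_union, List.mem_toFinset] at hT'
    rcases hT' with h | h
    · exact (mem_sdiff.1 h).2 (mem_union_left _ hu)
    · exact (hsc.out u h).1 hu
  have hTsol : IsSol G k T := by
    refine ⟨hTcard.trans hS2.1, ?_⟩
    intro x' hx'
    by_cases hx'U : x' ∈ US G S' c
    · refine ⟨c, hUT c hcU, ?_, ?_⟩
      · have := (mem_US _ _ _ _).1 hx'U
        rcases this.1 with h | h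
        · subst h; exact Rc.refl _ _ _
        · exact (Rc.adj h (hUT c hcU) hx').symm
      · intro y hy
        have : y ∈ US G S' c := by
          refine hy.closed (fun v => v ∈ US G S' c) hx'U ?_
          intro a b ha hab _ hb
          have hb' : b ∈ B := hBcl a (mem_union_left _ ha) b hab (fun h => hb (hST h))
          rw [hB, mem_union, List.mem_toFinset] at hb'
          rcases hb' with h | h
          · exact h
          · exact absurd (mem_union_right _ (List.mem_toFinset.2 h)) hb
        exact ((mem_US _ _ _ _).1 this).1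
    · have hx'B : x' ∉ B := by
        intro h
        rw [hB, mem_union] at h
        rcases h with h | h
        · exact hx'U h
        · exact hx' (mem_union_right _ h)
      have hx'S : x' ∉ S := fun h => hx' (mem_union_left _ (mem_sdiff.2 ⟨h, hx'B⟩))
      -- outside `B` nothing changes
      have hout : ∀ a, a ∉ B → (a ∉ T ↔ a ∉ S) := by
        intro a ha
        rw [hT, mem_union, mem_sdiff, List.mem_toFinset]
        constructor
        · intro h h'
          exact h (Or.inl ⟨h', ha⟩)
        · rintro h (h' | h')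
          · exact h h'.1
          · exact ha (mem_union_right _ (List.mem_toFinset.2 h'))
      have hstay : ∀ a b, a ∉ B → G.Adj a b → a ∉ S' → b ∉ B := by
        intro a b ha hab haS hb
        exact ha (hBcl b hb a hab.symm haS)
      have h1 : ∀ y, Rc G T x' y → Rc G S x' y ∧ y ∉ B := by
        intro y hy
        refine hy.closed (fun v => Rc G S x' v ∧ v ∉ B) ⟨Rc.refl _ _ _, hx'B⟩ ?_
        rintro a b ⟨ha, haB⟩ hab haT hbT
        have hbB := hstay a b haB hab (fun h => haT (hST h))
        exact ⟨ha.trans (Rc.adj hab ((hout a haB).1 haT) ((hout b hbB).1 hbT)), hbB⟩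
      have h2 : ∀ y, Rc G S x' y → Rc G T x' y ∧ y ∉ B := by
        intro y hy
        refine hy.closed (fun v => Rc G T x' v ∧ v ∉ B) ⟨Rc.refl _ _ _, hx'B⟩ ?_
        rintro a b ⟨ha, haB⟩ hab haT hbT
        have hbB := hstay a b haB hab (fun h => haT (hS h))
        exact ⟨ha.trans (Rc.adj hab ((hout a haB).2 haT) ((hout b hbB).2 hbT)), hbB⟩
      obtain ⟨t', ht'⟩ := hS2.2 x' hx'S
      have ht2 := h2 t' ht'.2.1
      exact ⟨t', (hout t' ht2.2).2 ht'.1, ht2.1, fun y hy => ht'.2.2 y (h1 y hy).1⟩
  obtain ⟨y0, hy0⟩ := List.exists_mem_of_ne_nil R hne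
  refine hcon y0 (Or.inr (Or.inr (Or.inr hy0))) ⟨T, insert_subset ?_ hST, hTsol⟩
  exact mem_union_right _ (List.mem_toFinset.2 hy0)

/-- the branching lemma for a large matching -/
theorem branch_big {G : SimpleGraph V} {k : ℕ} {S' : Finset V} {x c : V} {M : List (V × V)}
    (hp : Pair G S' x c) (hM : Match G S' c M) (hlen : 2 * (k - S'.card) + 1 ≤ M.length)
    (hsol : Sol G k S') : ∃ y, (y = x ∨ y = c) ∧ Sol G k (insert y S') := by
  obtain ⟨S, hS, hS2⟩ := hsol
  rcases lemma2 hp hM hlen hS hS2 with h | h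
  · exact ⟨x, Or.inl rfl, S, insert_subset h hS, hS2⟩
  · exact ⟨c, Or.inr rfl, S, insert_subset h hS, hS2⟩

/-- if every component is dominated then the state is a solution, and if it is not and the budget is
exhausted then no solution contains the state -/
theorem sol_of_all_dom {G : SimpleGraph V} {k : ℕ} {S' : Finset V} (hk : S'.card ≤ k)
    (h : ∀ x, x ∉ S' → Dom G S' x) : IsSol G k S' := ⟨hk, h⟩

theorem not_sol_of_full {G : SimpleGraph V} {k : ℕ} {S' : Finset V} {x : V} (hk : k ≤ S'.card)
    (hx : x ∉ S') (hd : ¬ Dom G S' x) : ¬ Sol G k S' := by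
  rintro ⟨S, hS, hS2⟩
  have : S' = S := eq_of_subset_of_card_le hS (hS2.1.trans hk)
  subst this
  exact hd (hS2.2 x hx)

end Pool.Agent.TL56
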