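import Pool.Agent.W_3feab3_h56.Branch

/-!
Pure part P2: the Nagamochi-Ibaraki certificate.
-/

set_option autoImplicit false
set_option linter.unusedSectionVars false

namespace Pool.Agent.TL56

open Finset Classical

variable {V : Type*} [Fintype V]

/-- number of neighbours of `y` among the first `i` scanned vertices -/
noncomputable def rr (G : SimpleGraph V) (ord : List V) (i : ℕ) (y : V) : ℕ :=
  ((ord.take i).filter (fun v => decide (G.Adj y v))).length

/-- `a` is one of the first `L` neighbours of `y` scanned before `y` -/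
def InBK (G : SimpleGraph V) (ord : List V) (L : ℕ) (a y : V) : Prop :=
  ∃ i, ∃ h : i < ord.length, ord[i] = a ∧ y ∉ ord.take (i + 1) ∧ G.Adj y a ∧ rr G ord i y < L

/-- the certificate graph -/
def Cert (G : SimpleGraph V) (ord : List V) (L : ℕ) (a b : V) : Prop :=
  InBK G ord L a b ∨ InBK G ord L b a

/-- the scan order is greedy: the scanned vertex has the largest capped number of scanned
neighbours among the unscanned ones -/
def Greedy (G : SimpleGraph V) (ord : List V) (L : ℕ) : Prop :=
  ∀ i, ∀ h : i < ord.length, ∀ y, y ∉ ord.take i →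
    min (rr G ord i y) L ≤ min (rr G ord i (ord[i])) L

/-- the certificate restricted to `A` minus `W` -/
def CG (G : SimpleGraph V) (ord : List V) (L : ℕ) (A : V → Prop) (W : Finset V) :
    SimpleGraph V where
  Adj a b := a ≠ b ∧ Cert G ord L a b ∧ A a ∧ A b ∧ a ∉ W ∧ b ∉ W
  symm := ⟨fun _ _ h => ⟨h.1.symm, h.2.1.symm, h.2.2.2.1, h.2.2.1, h.2.2.2.2.2, h.2.2.2.2.1⟩⟩
  loopless := ⟨fun _ h => h.1 rfl⟩

theorem CG.mono {G : SimpleGraph V} {ord : List V} {L : ℕ} {A A' : V → Prop} {W W' : Finset V}
    (hA : ∀ a, A a → A' a) (hW : ∀ a, A a → a ∉ W → a ∉ W') {x y : V}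
    (h : (CG G ord L A W).Reachable x y) : (CG G ord L A' W').Reachable x y := by
  refine h.mono ?_
  intro a b hab
  exact ⟨hab.1, hab.2.1, hA _ hab.2.2.1, hA _ hab.2.2.2.1, hW _ hab.2.2.1 hab.2.2.2.2.1,
    hW _ hab.2.2.2.1 hab.2.2.2.2.2⟩

theorem rr_succ (G : SimpleGraph V) (ord : List V) (i : ℕ) (h : i < ord.length) (y : V) :
    rr G ord (i + 1) y = rr G ord i y + (if G.Adj y (ord[i]) then 1 else 0) := by
  unfold rr
  rw [List.take_add_one, List.filter_append, List.length_append, List.getElem?_eq_getElem h]
  by_cases hadj : G.Adj y (ord[i])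
  · simp [hadj]
  · simp [hadj]

theorem InBK.adj {G : SimpleGraph V} {ord : List V} {L : ℕ} {a y : V} (h : InBK G ord L a y) :
    G.Adj y a := by
  obtain ⟨i, hi, _, _, h2, _⟩ := h
  exact h2

theorem Cert.adj {G : SimpleGraph V} {ord : List V} {L : ℕ} {a b : V} (h : Cert G ord L a b) :
    G.Adj a b := by
  rcases h with h | h
  · exact h.adj.symm
  · exact h.adj

theorem rr_le_of_notMem (G : SimpleGraph V) (ord : List V) (i : ℕ) (y : V) :
    rr G ord i y ≤ rr G ord (i + 1) y := by
  by_cases h : i < ord.length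
  · rw [rr_succ G ord i h y]; omega
  · unfold rr
    rw [List.take_of_length_le (by omega), List.take_of_length_le (by omega)]

/-- the claim `S_j(i)` -/
theorem claim {G : SimpleGraph V} {ord : List V} (hnd : ord.Nodup) {L : ℕ}
    (hg : Greedy G ord L) (i : ℕ) : ∀ (j : ℕ), j ≤ L → ∀ (z z' : V) (W : Finset V),
    i ≤ ord.length → z ∉ ord.take i → z' ∉ ord.take i → j ≤ rr G ord i z → j ≤ rr G ord i z' →
    W.card < j → z ∉ W → z' ∉ W →
    (CG G ord L (fun v => v ∈ ord.take i ∨ v = z ∨ v = z') W).Reachable z z' := by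
  induction i with
  | zero =>
    intro j _ z z' W _ _ _ h1 _ h3
    simp [rr] at h1
    omega
  | succ i ih =>
    intro j hj z z' W hi hz hz' hrz hrz' hW hzW hz'W
    have hi' : i < ord.length := by omega
    set v := ord[i] with hv
    have hzi : z ∉ ord.take i := fun h => hz (by
      rw [List.take_add_one]; exact List.mem_append_left _ h)
    have hz'i : z' ∉ ord.take i := fun h => hz' (by
      rw [List.take_add_one]; exact List.mem_append_left _ h)
    have hvt : v ∈ ord.take (i + 1) := by
      rw [List.take_add_one, List.getElem?_eq_getElem hi']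
      exact List.mem_append_right _ (by simp [hv])
    have hvi : v ∉ ord.take i := by
      intro h
      obtain ⟨m, hm, hm2⟩ := List.mem_take_iff_getElem.1 h
      have : m = i := (List.Nodup.getElem_inj_iff hnd).1 hm2
      omega
    have hvz : v ≠ z := fun h => hz (h ▸ hvt)
    have hvz' : v ≠ z' := fun h => hz' (h ▸ hvt)
    have hmono : ∀ {a b : V}, (CG G ord L (fun u => u ∈ ord.take i ∨ u = a ∨ u = b) W).Reachable a b →
        (a = z ∨ a = z' ∨ a = v) → (b = z ∨ b = z' ∨ b = v) →
        (CG G ord L (fun u => u ∈ ord.take (i + 1) ∨ u = z ∨ u = z') W).Reachable a b := by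
      intro a b h ha hb
      refine h.mono ?_
      intro p q hpq
      have hh : ∀ u, (u ∈ ord.take i ∨ u = a ∨ u = b) →
          (u ∈ ord.take (i + 1) ∨ u = z ∨ u = z') := by
        intro u hu
        rcases hu with hu | hu | hu
        · left; rw [List.take_add_one]; exact List.mem_append_left _ hu
        · subst hu
          rcases ha with ha | ha | ha
          · exact Or.inr (Or.inl ha)
          · exact Or.inr (Or.inr ha)
          · left; rw [ha]; exact hvt
        · subst hu
          rcases hb with ha | ha | ha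
          · exact Or.inr (Or.inl ha)
          · exact Or.inr (Or.inr ha)
          · left; rw [ha]; exact hvt
      exact ⟨hpq.1, hpq.2.1, hh _ hpq.2.2.1, hh _ hpq.2.2.2.1, hpq.2.2.2.2.1, hpq.2.2.2.2.2⟩
    by_cases hboth : j ≤ rr G ord i z ∧ j ≤ rr G ord i z'
    · exact hmono (ih j hj z z' W (by omega) hzi hz'i hboth.1 hboth.2 hW hzW hz'W)
        (Or.inl rfl) (Or.inr (Or.inl rfl))
    by_cases hvW : v ∈ W
    · -- use `S_(j-1)(i)` with `W - v`
      have hj1 : 1 ≤ W.card := card_pos.2 ⟨v, hvW⟩
      have h1 := rr_succ G ord i hi' z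
      have h2 := rr_succ G ord i hi' z'
      have h3 : j - 1 ≤ rr G ord i z := by split_ifs at h1 <;> omega
      have h4 : j - 1 ≤ rr G ord i z' := by split_ifs at h2 <;> omega
      have h5 := ih (j - 1) (by omega) z z' (W.erase v) (by omega) hzi hz'i h3 h4
        (by rw [card_erase_of_mem hvW]; omega) (fun h => hzW (mem_of_mem_erase h))
        (fun h => hz'W (mem_of_mem_erase h))
      refine CG.mono (A := fun u => u ∈ ord.take i ∨ u = z ∨ u = z') ?_ ?_ h5
      · intro a ha
        rcases ha with ha | ha
        · left; rw [List.take_add_one]; exact List.mem_append_left _ ha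
        · right; exact ha
      · intro a ha haW haW'
        have : a ≠ v := by
          intro h
          subst h
          rcases ha with ha | ha | ha
          · exact hvi ha
          · exact hvz ha
          · exact hvz' ha
        exact haW (mem_erase.2 ⟨this, haW'⟩)
    · -- `v` is not in `W`
      have edge : ∀ w, w = z ∨ w = z' → w ∉ W → w ∉ ord.take (i + 1) → j ≤ rr G ord (i + 1) w →
          ¬ j ≤ rr G ord i w →
          (CG G ord L (fun u => u ∈ ord.take (i + 1) ∨ u = z ∨ u = z') W).Adj w v := by
        intro w hw hwW hwt h1 h2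
        have h3 := rr_succ G ord i hi' w
        have hadj : G.Adj w v := by
          by_contra hna
          rw [if_neg hna] at h3
          omega
        refine ⟨?_, Or.inr ⟨i, hi', rfl, hwt, hadj, by omega⟩, ?_, Or.inl hvt, hwW, hvW⟩
        · intro h
          exact hwt (h ▸ hvt)
        · right; exact hw
      have toV : ∀ w, w = z ∨ w = z' → w ∉ W → w ∉ ord.take (i + 1) → j ≤ rr G ord (i + 1) w →
          (CG G ord L (fun u => u ∈ ord.take (i + 1) ∨ u = z ∨ u = z') W).Reachable w v := by
        intro w hw hwW hwt h1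
        by_cases h2 : j ≤ rr G ord i w
        · -- then `v` also has many scanned neighbours
          have hwi : w ∉ ord.take i := fun h => hwt (by
            rw [List.take_add_one]; exact List.mem_append_left _ h)
          have h3 := hg i hi' w hwi
          have h4 : j ≤ rr G ord i v := by
            rw [← hv] at h3
            omega
          have := ih j hj w v W (by omega) hwi hvi h2 h4 hW hwW hvW
          refine hmono this ?_ (Or.inr (Or.inr rfl))
          rcases hw with h | h
          · exact Or.inl h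
          · exact Or.inr (Or.inl h)
        · exact SimpleGraph.Adj.reachable (edge w hw hwW hwt h1 h2)
      exact (toV z (Or.inl rfl) hzW hz hrz).trans (toV z' (Or.inr rfl) hz'W hz' hrz').symm

/-- consequence: an edge of `G - W` joins vertices connected in the certificate minus `W` -/
theorem edge_conn {G : SimpleGraph V} {ord : List V} (hnd : ord.Nodup) (hall : ∀ v, v ∈ ord)
    {L : ℕ} (hg : Greedy G ord L) {W : Finset V} (hW : W.card < L) {z z' : V}
    (hadj : G.Adj z z') (hz : z ∉ W) (hz' : z' ∉ W) :
    (CG G ord L (fun _ => True) W).Reachable z z' := by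
  -- the version where `z'` is scanned first
  have key : ∀ z z' : V, G.Adj z z' → z ∉ W → z' ∉ W → ∀ i, ∀ h : i < ord.length, ord[i] = z' →
      z ∉ ord.take (i + 1) → (CG G ord L (fun _ => True) W).Reachable z z' := by
    intro z z' hadj hz hz' i hi hiz hzt
    have hzi : z ∉ ord.take i := fun h => hzt (by
      rw [List.take_add_one]; exact List.mem_append_left _ h)
    by_cases hr : rr G ord i z < L
    · refine SimpleGraph.Adj.reachable ⟨hadj.ne, Or.inr ⟨i, hi, hiz, hzt, hadj, hr⟩, trivial,
        trivial, hz, hz'⟩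
    · have h3 := hg i hi z hzi
      have h4 : L ≤ rr G ord i z' := by
        rw [hiz] at h3
        omega
      have hvi : z' ∉ ord.take i := by
        intro h
        obtain ⟨m, hm, hm2⟩ := List.mem_take_iff_getElem.1 h
        have : ord[m] = ord[i] := by rw [hm2, hiz]
        have : m = i := (List.Nodup.getElem_inj_iff hnd).1 this
        omega
      have := claim hnd hg i L le_rfl z z' W (by omega) hzi hvi (by omega) h4 hW hz hz'
      exact CG.mono (fun _ _ => trivial) (fun _ _ h => h) this
  obtain ⟨i, hi, hiz⟩ := List.mem_iff_getElem.1 (hall z)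
  obtain ⟨i', hi', hiz'⟩ := List.mem_iff_getElem.1 (hall z')
  have hne : i ≠ i' := by
    intro h
    subst h
    exact hadj.ne (hiz.symm.trans hiz')
  have notin : ∀ (p q : ℕ) (hp : p < ord.length) (hq : q < ord.length), q < p →
      ord[p] ∉ ord.take (q + 1) := by
    intro p q hp hq hqp h
    obtain ⟨m, hm, hm2⟩ := List.mem_take_iff_getElem.1 h
    have : m = p := (List.Nodup.getElem_inj_iff hnd).1 hm2
    omega
  rcases lt_or_gt_of_ne hne with h | h
  · exact (key z' z hadj.symm hz' hz i hi hiz (hiz' ▸ notin i' i hi' hi h)).symm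
  · exact key z z' hadj hz hz' i' hi' hiz' (hiz ▸ notin i i' hi hi' h)

/-- cut form: an edge of `G - W` leaving `P` gives a certificate edge leaving `P` outside `W` -/
theorem cut_edge {G : SimpleGraph V} {ord : List V} (hnd : ord.Nodup) (hall : ∀ v, v ∈ ord)
    {L : ℕ} (hg : Greedy G ord L) {W : Finset V} (hW : W.card < L) (P : V → Prop) {u y : V}
    (hu : P u) (hy : ¬ P y) (hadj : G.Adj u y) (huW : u ∉ W) (hyW : y ∉ W) :
    ∃ a b, Cert G ord L a b ∧ P a ∧ ¬ P b ∧ a ∉ W ∧ b ∉ W := by
  by_contra hcon
  push Not at hcon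
  obtain ⟨w⟩ := edge_conn hnd hall hg hW hadj huW hyW
  have : P y := by
    clear hy hadj hyW huW
    induction w with
    | nil => exact hu
    | @cons a b c hab _ ih =>
      refine ih ?_
      by_contra hb
      exact hab.2.2.2.2.2 (hcon a b hab.2.1 hu hb hab.2.2.2.2.1)
  exact hy this

/-- (6) a matching which is maximal for the certificate arcs covers all arcs leaving `U` -/
theorem exam_cover {G : SimpleGraph V} {ord : List V} (hnd : ord.Nodup) (hall : ∀ v, v ∈ ord)
    {L : ℕ} (hg : Greedy G ord L) {S' : Finset V} {c : V} {X : Finset V}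
    (hX : (S' ∪ X).card < L)
    (hmax : ∀ a b, Cert G ord L a b → a ∈ US G S' c → b ∉ US G S' c → b ∉ S' → a ∈ X ∨ b ∈ X)
    {u y : V} (h : Arc G S' c u y) : u ∈ X ∨ y ∈ X := by
  by_contra hcon
  rw [not_or] at hcon
  obtain ⟨a, b, h1, h2, h3, h4, h5⟩ := cut_edge hnd hall hg hX (fun v => v ∈ US G S' c) h.1 h.2.1
    h.2.2.2 (fun h' => by
      rcases mem_union.1 h' with h' | h'
      · exact ((mem_US _ _ _ _).1 h.1).2 h'
      · exact hcon.1 h') (fun h' => by
      rcases mem_union.1 h' with h' | h'
      · exact h.2.2.1 h'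
      · exact hcon.2 h')
  rcases hmax a b h1 h2 h3 (fun h => h5 (mem_union_left _ h)) with h | h
  · exact h4 (mem_union_right _ h)
  · exact h5 (mem_union_right _ h)

/-- (6) the flags: if no arc leaves `U` then every neighbour of `U` has a certificate edge to `U` -/
theorem exam_flag {G : SimpleGraph V} {ord : List V} (hnd : ord.Nodup) (hall : ∀ v, v ∈ ord)
    {L : ℕ} (hg : Greedy G ord L) {S' : Finset V} {c : V} (hS : S'.card ≤ L)
    (hcl : Closed G S' c) {u s : V} (hu : u ∈ US G S' c) (hs : s ∉ US G S' c)
    (hadj : G.Adj u s) : s ∈ S' ∧ ∃ a ∈ US G S' c, Cert G ord L a s := by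
  have hsS : s ∈ S' := by
    by_contra h
    exact hs (hcl u hu s hadj h)
  refine ⟨hsS, ?_⟩
  have hW : (S'.erase s).card < L := by
    rw [card_erase_of_mem hsS]
    have : 1 ≤ S'.card := card_pos.2 ⟨s, hsS⟩
    omega
  obtain ⟨a, b, h1, h2, h3, _, h5⟩ := cut_edge hnd hall hg hW (fun v => v ∈ US G S' c) hu hs
    hadj (fun h' => ((mem_US _ _ _ _).1 hu).2 (mem_of_mem_erase h')) (fun h' => by simp at h')
  have hb : b ∈ S' := by
    by_contra h
    exact h3 (hcl a h2 b h1.adj h)
  have : b = s := by
    by_contra hne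
    exact h5 (mem_erase.2 ⟨hne, hb⟩)
  subst this
  exact ⟨a, h2, h1⟩

end Pool.Agent.TL56
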