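import Pool.Agent.W_3feab3_h56.Branch

/-!
Pure part P3: the cover-preserving kernel of a run of arcs, and the test for a giant.
-/

set_option autoImplicit false
set_option linter.unusedSectionVars false

namespace Pool.Agent.TL56

open Finset Classical

variable {V : Type*} [Fintype V]

/-- `K` is a kernel of the run `R` (a set of arcs): a dropped arc has `q + 1` kept arcs at its
first end, or at its second end, or more than `q (q + 1)` arcs are kept; kept degrees are at most
`q + 1` -/
structure KerSpec (q : ℕ) (R K : Finset (V × V)) : Prop where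
  sub : K ⊆ R
  degF : ∀ x, (K.filter (fun e => e.1 = x)).card ≤ q + 1
  degS : ∀ x, (K.filter (fun e => e.2 = x)).card ≤ q + 1
  drop : ∀ e ∈ R, e ∉ K → q + 1 ≤ (K.filter (fun e' => e'.1 = e.1)).card ∨
    q + 1 ≤ (K.filter (fun e' => e'.2 = e.2)).card ∨ q * (q + 1) + 1 ≤ K.card

/-- the kernel fact: a set of at most `q` vertices covering the kept arcs covers the run; the two
sides of the run are separated by `T` -/
theorem KerSpec.fact {q : ℕ} {R K : Finset (V × V)} (h : KerSpec q R K) {T : V → Prop}
    (hT : ∀ e ∈ R, T e.1 ∧ ¬ T e.2) {Z : Finset V} (hZ : Z.card ≤ q)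
    (hcov : ∀ e ∈ K, e.1 ∈ Z ∨ e.2 ∈ Z) : ∀ e ∈ R, e.1 ∈ Z ∨ e.2 ∈ Z := by
  intro e he
  by_cases heK : e ∈ K
  · exact hcov e heK
  rcases h.drop e he heK with h1 | h1 | h1
  · left
    by_contra hn
    have hsub : (K.filter (fun e' => e'.1 = e.1)).image Prod.snd ⊆ Z := by
      intro y hy
      rw [mem_image] at hy
      obtain ⟨e', he', rfl⟩ := hy
      rw [mem_filter] at he'
      rcases hcov e' he'.1 with h2 | h2
      · rw [he'.2] at h2; exact absurd h2 hn
      · exact h2
    have hinj : Set.InjOn Prod.snd ((K.filter (fun e' => e'.1 = e.1) : Finset (V × V)) : Set (V × V)) := by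
      intro a ha b hb hab
      rw [mem_coe, mem_filter] at ha hb
      exact Prod.ext (ha.2.trans hb.2.symm) hab
    have := card_le_card hsub
    rw [card_image_of_injOn hinj] at this
    omega
  · right
    by_contra hn
    have hsub : (K.filter (fun e' => e'.2 = e.2)).image Prod.fst ⊆ Z := by
      intro y hy
      rw [mem_image] at hy
      obtain ⟨e', he', rfl⟩ := hy
      rw [mem_filter] at he'
      rcases hcov e' he'.1 with h2 | h2
      · exact h2
      · rw [he'.2] at h2; exact absurd h2 hn
    have hinj : Set.InjOn Prod.fst ((K.filter (fun e' => e'.2 = e.2) : Finset (V × V)) : Set (V × V)) := by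
      intro a ha b hb hab
      rw [mem_coe, mem_filter] at ha hb
      exact Prod.ext hab (ha.2.trans hb.2.symm)
    have := card_le_card hsub
    rw [card_image_of_injOn hinj] at this
    omega
  · exfalso
    -- every member of `Z` covers at most `q + 1` kept arcs
    have hsub : K ⊆ Z.biUnion (fun z => K.filter (fun e' => if T z then e'.1 = z else e'.2 = z)) := by
      intro e' he'
      rw [mem_biUnion]
      have hTe := hT e' (h.sub he')
      rcases hcov e' he' with h2 | h2
      · exact ⟨e'.1, h2, mem_filter.2 ⟨he', by rw [if_pos hTe.1]⟩⟩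
      · exact ⟨e'.2, h2, mem_filter.2 ⟨he', by rw [if_neg hTe.2]⟩⟩
    have h3 : K.card ≤ Z.card * (q + 1) := by
      refine (card_le_card hsub).trans (card_biUnion_le_card_mul _ _ _ ?_)
      intro z _
      by_cases hz : T z
      · simp only [hz, if_true]; exact h.degF z
      · simp only [hz, if_false]; exact h.degS z
    have h4 : Z.card * (q + 1) ≤ q * (q + 1) := Nat.mul_le_mul_right _ hZ
    omega

/-- one step of the greedy kernel -/
noncomputable def keepStep (q : ℕ) (K : List (V × V)) (e : V × V) : List (V × V) :=
  if (K.filter (fun e' => decide (e'.1 = e.1))).length ≤ q ∧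
      (K.filter (fun e' => decide (e'.2 = e.2))).length ≤ q ∧ K.length ≤ q * (q + 1)
  then K ++ [e] else K

/-- the greedy kernel of a list of arcs -/
noncomputable def kerList (q : ℕ) (R : List (V × V)) : List (V × V) := R.foldl (keepStep q) []

theorem cardF (K : List (V × V)) (hK : K.Nodup) (p : V × V → Prop) :
    (K.toFinset.filter p).card = (K.filter (fun e => decide (p e))).length := by
  rw [← List.toFinset_card_of_nodup (hK.filter _)]
  congr 1
  ext e
  simp [List.mem_toFinset]

theorem kerList_spec (q : ℕ) (R : List (V × V)) (hR : R.Nodup) :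
    (kerList q R).Nodup ∧ KerSpec q R.toFinset (kerList q R).toFinset := by
  -- the invariant, in terms of lists
  have inv : ∀ (P : List (V × V)), P <+: R →
      (P.foldl (keepStep q) []).Nodup ∧ (∀ e ∈ P.foldl (keepStep q) [], e ∈ P) ∧
      (∀ x, ((P.foldl (keepStep q) []).filter (fun e => decide (e.1 = x))).length ≤ q + 1) ∧
      (∀ x, ((P.foldl (keepStep q) []).filter (fun e => decide (e.2 = x))).length ≤ q + 1) ∧
      (∀ e ∈ P, e ∉ P.foldl (keepStep q) [] →
        q + 1 ≤ ((P.foldl (keepStep q) []).filter (fun e' => decide (e'.1 = e.1))).length ∨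
        q + 1 ≤ ((P.foldl (keepStep q) []).filter (fun e' => decide (e'.2 = e.2))).length ∨
        q * (q + 1) + 1 ≤ (P.foldl (keepStep q) []).length) := by
    intro P
    induction P using List.reverseRecOn with
    | nil => intro _; simp
    | append_singleton P e ih =>
      intro hP
      have hP' : P <+: R := (List.prefix_append P [e]).trans hP
      obtain ⟨h1, h2, h3, h4, h5⟩ := ih hP'
      have heP : e ∉ P := by
        have := hR.sublist hP.sublist
        rw [List.nodup_append] at this
        intro he
        exact this.2.2 e he e (by simp) rfl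
      rw [List.foldl_append]
      simp only [List.foldl_cons, List.foldl_nil]
      set K := P.foldl (keepStep q) [] with hK
      unfold keepStep
      split_ifs with hc
      · refine ⟨?_, ?_, ?_, ?_, ?_⟩
        · rw [List.nodup_append]
          refine ⟨h1, by simp, ?_⟩
          intro a ha b hb hab
          simp only [List.mem_singleton] at hb
          subst hb; subst hab
          exact heP (h2 _ ha)
        · intro a ha
          rw [List.mem_append, List.mem_singleton] at ha ⊢
          rcases ha with ha | ha
          · exact Or.inl (h2 a ha)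
          · exact Or.inr ha
        · intro x
          rw [List.filter_append, List.length_append]
          by_cases hx : e.1 = x
          · subst hx
            have := hc.1
            simp only [decide_true, List.filter_cons_of_pos, List.filter_nil, List.length_singleton]
            omega
          · have := h3 x
            simp only [hx, decide_false, Bool.false_eq_true, not_false_eq_true,
              List.filter_cons_of_neg, List.filter_nil, List.length_nil]
            omega
        · intro x
          rw [List.filter_append, List.length_append]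
          by_cases hx : e.2 = x
          · subst hx
            have := hc.2.1
            simp only [decide_true, List.filter_cons_of_pos, List.filter_nil, List.length_singleton]
            omega
          · have := h4 x
            simp only [hx, decide_false, Bool.false_eq_true, not_false_eq_true,
              List.filter_cons_of_neg, List.filter_nil, List.length_nil]
            omega
        · intro a ha haK
          rw [List.mem_append, List.mem_singleton] at ha haK
          rw [not_or] at haK
          rcases ha with ha | ha
          · rw [List.filter_append, List.filter_append, List.length_append, List.length_append,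
              List.length_append]
            rcases h5 a ha haK.1 with h | h | h
            · left; omega
            · right; left; omega
            · right; right; omega
          · exact absurd ha haK.2
      · refine ⟨h1, ?_, h3, h4, ?_⟩
        · intro a ha
          exact List.mem_append_left _ (h2 a ha)
        · intro a ha haK
          rw [List.mem_append, List.mem_singleton] at ha
          rcases ha with ha | ha
          · exact h5 a ha haK
          · subst ha
            rw [not_and_or, not_and_or] at hc
            rcases hc with h | h | h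
            · left; omega
            · right; left; omega
            · right; right; omega
  obtain ⟨h1, h2, h3, h4, h5⟩ := inv R (List.prefix_refl R)
  unfold kerList
  refine ⟨h1, ⟨?_, ?_, ?_, ?_⟩⟩
  · intro e he
    rw [List.mem_toFinset] at he ⊢
    exact h2 e he
  · intro x
    rw [cardF _ h1]
    exact h3 x
  · intro x
    rw [cardF _ h1]
    exact h4 x
  · intro e he heK
    rw [List.mem_toFinset] at he heK
    rw [cardF _ h1, cardF _ h1, List.toFinset_card_of_nodup h1]
    exact h5 e he heK

/-- the run of two classes -/
noncomputable def run (G : SimpleGraph V) (node : V → ℕ) (a b : ℕ) : Finset (V × V) :=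
  univ.filter (fun e => G.Adj e.1 e.2 ∧ node e.1 = a ∧ node e.2 = b)

theorem mem_run (G : SimpleGraph V) (node : V → ℕ) (a b : ℕ) (e : V × V) :
    e ∈ run G node a b ↔ G.Adj e.1 e.2 ∧ node e.1 = a ∧ node e.2 = b := by simp [run]

/-- `ker` is a kernel for every run of two different classes -/
def KerAll (G : SimpleGraph V) (node : V → ℕ) (q : ℕ) (ker : Finset (V × V)) : Prop :=
  ∀ a b, a ≠ b → KerSpec q (run G node a b)
    (ker.filter (fun e => node e.1 = a ∧ node e.2 = b))

/-- membership in `N[c]` depends only on the class -/
def ClassOf (G : SimpleGraph V) (node : V → ℕ) (c : V) : Prop :=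
  ∀ y y', node y = node y' → ((y = c ∨ G.Adj c y) ↔ (y' = c ∨ G.Adj c y'))

/-- (8) GTEST: a set meeting all kept arcs which leave `U` covers all arcs leaving `U` -/
theorem gtest_cover {G : SimpleGraph V} {node : V → ℕ} {q : ℕ} {ker : Finset (V × V)}
    (hker : KerAll G node q ker) {S' : Finset V} {c : V} (hcl : ClassOf G node c) {X : Finset V}
    (hX : (S' ∪ X).card ≤ q)
    (hmax : ∀ e ∈ ker, Arc G S' c e.1 e.2 → e.1 ∈ X ∨ e.2 ∈ X)
    {u y : V} (h : Arc G S' c u y) : u ∈ X ∨ y ∈ X := by
  have hu := (mem_US _ _ _ _).1 h.1
  have hy : ¬ (y = c ∨ G.Adj c y) := by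
    intro hh
    exact h.2.1 ((mem_US _ _ _ _).2 ⟨hh, h.2.2.1⟩)
  have hne : node u ≠ node y := by
    intro hh
    exact hy ((hcl u y hh).1 hu.1)
  have hspec := hker (node u) (node y) hne
  have := hspec.fact (T := fun v => node v = node u) ?_ hX ?_ (u, y)
    ((mem_run _ _ _ _ _).2 ⟨h.2.2.2, rfl, rfl⟩)
  · rcases this with h1 | h1
    · rcases mem_union.1 h1 with h2 | h2
      · exact absurd h2 hu.2
      · exact Or.inl h2
    · rcases mem_union.1 h1 with h2 | h2
      · exact absurd h2 h.2.2.1
      · exact Or.inr h2
  · intro e he
    rw [mem_run] at he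
    exact ⟨he.2.1, fun h' => hne (h'.symm.trans he.2.2)⟩
  · intro e he
    have heR := hspec.sub he
    rw [mem_run] at heR
    rw [mem_filter] at he
    by_cases h1 : e.1 ∈ S'
    · exact Or.inl (mem_union_left _ h1)
    by_cases h2 : e.2 ∈ S'
    · exact Or.inr (mem_union_left _ h2)
    have hin : e.1 = c ∨ G.Adj c e.1 := (hcl u e.1 heR.2.1.symm).1 hu.1
    have hout : ¬ (e.2 = c ∨ G.Adj c e.2) := fun hh => hy ((hcl e.2 y heR.2.2).1 hh)
    rcases hmax e he.1 ⟨(mem_US _ _ _ _).2 ⟨hin, h1⟩,
        fun hh => hout ((mem_US _ _ _ _).1 hh).1, h2, heR.1⟩ with h3 | h3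
    · exact Or.inl (mem_union_right _ h3)
    · exact Or.inr (mem_union_right _ h3)

/-- (8) the neighbours of a giant `p` (a singleton class) outside `N[c]`, avoiding a set `A` of
at most `q` vertices, are found in the kernel -/
theorem giant_nbr {G : SimpleGraph V} {node : V → ℕ} {q : ℕ} {ker : Finset (V × V)}
    (hker : KerAll G node q ker) {c p : V} (hcl : ClassOf G node c)
    (hp : ∀ x, node x = node p → x = p) {A : Finset V} (hA : A.card ≤ q) {y : V}
    (hpy : G.Adj p y) (hy : ¬ (y = c ∨ G.Adj c y)) (hyA : y ∉ A) :
    ∃ y', (p, y') ∈ ker ∧ G.Adj p y' ∧ ¬ (y' = c ∨ G.Adj c y') ∧ y' ∉ A := by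
  have hne : node p ≠ node y := by
    intro h
    exact hpy.ne (hp y h.symm).symm
  have hspec := hker (node p) (node y) hne
  set K := ker.filter (fun e => node e.1 = node p ∧ node e.2 = node y) with hK
  have hfst : ∀ e ∈ K, e.1 = p := by
    intro e he
    rw [hK, mem_filter] at he
    exact hp _ he.2.1
  by_cases hin : (p, y) ∈ K
  · rw [hK, mem_filter] at hin
    exact ⟨y, hin.1, hpy, hy, hyA⟩
  -- at least `q + 1` arcs are kept
  have hcard : q + 1 ≤ K.card := by
    rcases hspec.drop (p, y) ((mem_run _ _ _ _ _).2 ⟨hpy, rfl, rfl⟩) hin with h | h | h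
    · exact h.trans (card_le_card (filter_subset _ _))
    · exact h.trans (card_le_card (filter_subset _ _))
    · rcases Nat.eq_zero_or_pos q with h0 | h0
      · subst h0; simpa using h
      · have : 1 * (q + 1) ≤ q * (q + 1) := Nat.mul_le_mul_right _ h0
        omega
  have hinj : Set.InjOn Prod.snd (K : Set (V × V)) := by
    intro a ha b hb hab
    exact Prod.ext ((hfst a ha).trans (hfst b hb).symm) hab
  have : ∃ y' ∈ K.image Prod.snd, y' ∉ A := by
    by_contra hcon
    push Not at hcon
    have h1 : (K.image Prod.snd) ⊆ A := fun z hz => hcon z hz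
    have h2 := card_le_card h1
    rw [card_image_of_injOn hinj] at h2
    omega
  obtain ⟨y', hy', hy'A⟩ := this
  rw [mem_image] at hy'
  obtain ⟨e, he, rfl⟩ := hy'
  have he1 := hfst e he
  have heR := hspec.sub he
  rw [mem_run] at heR
  have he2 := (mem_filter.1 he).1
  refine ⟨e.2, ?_, ?_, ?_, hy'A⟩
  · rw [← he1]; exact he2
  · rw [← he1]; exact heR.1
  · intro h
    exact hy ((hcl e.2 y heR.2.2).1 h)

end Pool.Agent.TL56
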