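import Pool.Agent.W_3feab3_h56.Branch

/-!
Pure part P4, P5: soundness of the stored records, disjointness of closed exams, completeness of
the work at a node of the search tree.
-/

set_option autoImplicit false
set_option linter.unusedSectionVars false

namespace Pool.Agent.TL56

open Finset Classical

variable {V : Type*} [Fintype V]

/-- the canonical test pair: ties are broken by the smallest number -/
def Canon (G : SimpleGraph V) (num : V → ℕ) (S : Finset V) (x c : V) : Prop :=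
  x ∉ S ∧ c ∈ US G S x ∧ ∀ t ∈ US G S x, dp G S t < dp G S c ∨ (dp G S t = dp G S c ∧ num c ≤ num t)

theorem Canon.pair {G : SimpleGraph V} {num : V → ℕ} {S : Finset V} {x c : V}
    (h : Canon G num S x c) : Pair G S x c := by
  refine ⟨h.1, h.2.1, fun t ht => ?_⟩
  rcases h.2.2 t ht with h1 | h1
  · exact h1.le
  · exact h1.1.le

theorem Dom.rc {G : SimpleGraph V} {S : Finset V} {x y : V} (h : Dom G S x) (hxy : Rc G S x y) :
    Dom G S y := by
  obtain ⟨t, h1, h2, h3⟩ := h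
  exact ⟨t, h1, hxy.symm.trans h2, fun z hz => h3 z (hxy.trans hz)⟩

theorem mem_US_comm {G : SimpleGraph V} {S : Finset V} {x c : V} (hx : x ∉ S)
    (h : c ∈ US G S x) : x ∈ US G S c := by
  rw [mem_US] at h ⊢
  refine ⟨?_, hx⟩
  rcases h.1 with h | h
  · exact Or.inl h.symm
  · exact Or.inr h.symm

theorem self_mem_US {G : SimpleGraph V} {S : Finset V} {c : V} (hc : c ∉ S) : c ∈ US G S c :=
  (mem_US _ _ _ _).2 ⟨Or.inl rfl, hc⟩

/-- a closed `N[c] - S` is the component of `c` -/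
theorem Closed.rc_iff {G : SimpleGraph V} {S : Finset V} {c : V} (hcl : Closed G S c)
    (hc : c ∉ S) (y : V) : Rc G S c y ↔ y ∈ US G S c := by
  constructor
  · intro h
    exact h.closed (fun v => v ∈ US G S c) (self_mem_US hc)
      (fun a b ha hab _ hb => hcl a ha b hab hb)
  · exact Rc.us hc

/-- soundness of the records: `W` is the neighbourhood of a closed `N[c] - S₁` -/
theorem record_sound {G : SimpleGraph V} {S₁ S₂ : Finset V} {c : V} (hc1 : c ∉ S₁) (hc2 : c ∉ S₂)
    (hcl : Closed G S₁ c)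
    (hW : ∀ u ∈ US G S₁ c, ∀ s, G.Adj u s → s ∉ US G S₁ c → s ∈ S₂) : Closed G S₂ c := by
  intro u hu y huy hy
  have hu1 : u ∈ US G S₁ c := by
    rw [mem_US] at hu ⊢
    refine ⟨hu.1, fun h => ?_⟩
    rcases hu.1 with h1 | h1
    · subst h1; exact hc1 h
    · exact hu.2 (hW c (self_mem_US hc1) u h1 (fun h2 => ((mem_US _ _ _ _).1 h2).2 h))
  by_cases hy1 : y ∈ S₁
  · exact absurd (hW u hu1 y huy (fun h2 => ((mem_US _ _ _ _).1 h2).2 hy1)) hy
  · have := (mem_US _ _ _ _).1 (hcl u hu1 y huy hy1)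
    exact (mem_US _ _ _ _).2 ⟨this.1, hy⟩

/-- (11) two closed exams whose components avoid the other state and meet are the same -/
theorem exams_disjoint {G : SimpleGraph V} {num : V → ℕ} (hnum : Function.Injective num)
    {S₁ S₂ : Finset V} {x₁ c₁ x₂ c₂ : V} (h1 : Canon G num S₁ x₁ c₁) (h2 : Canon G num S₂ x₂ c₂)
    (hcl1 : Closed G S₁ c₁) (hcl2 : Closed G S₂ c₂) (ha : ∀ b ∈ US G S₁ c₁, b ∉ S₂)
    (hb : ∀ b ∈ US G S₂ c₂, b ∉ S₁) {b : V} (hb1 : b ∈ US G S₁ c₁) (hb2 : b ∈ US G S₂ c₂) :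
    c₁ = c₂ ∧ US G S₁ c₁ = US G S₂ c₂ ∧
      ∀ u ∈ US G S₁ c₁, ∀ s, G.Adj u s → s ∉ US G S₁ c₁ → s ∈ S₁ ∧ s ∈ S₂ := by
  have hc1 : c₁ ∉ S₁ := ((mem_US _ _ _ _).1 h1.2.1).2
  have hc2 : c₂ ∉ S₂ := ((mem_US _ _ _ _).1 h2.2.1).2
  have hsub : ∀ (S T : Finset V) (c d : V), c ∉ S → Closed G T d → d ∉ T →
      (∀ v ∈ US G S c, v ∉ T) → b ∈ US G S c → b ∈ US G T d → US G S c ⊆ US G T d := by
    intro S T c d hc hcl hd hav hbS hbT v hv
    have star : ∀ w ∈ US G S c, Rc G T c w := by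
      intro w hw
      have hw' := (mem_US _ _ _ _).1 hw
      rcases hw'.1 with h | h
      · subst h; exact Rc.refl _ _ _
      · exact Rc.adj h (hav c (self_mem_US hc)) (hav w hw)
    rw [← hcl.rc_iff hd] at hbT ⊢
    exact hbT.trans ((star b hbS).symm.trans (star v hv))
  have e1 := hsub S₁ S₂ c₁ c₂ hc1 hcl2 hc2 ha hb1 hb2
  have e2 := hsub S₂ S₁ c₂ c₁ hc2 hcl1 hc1 hb hb2 hb1
  have hBB : US G S₁ c₁ = US G S₂ c₂ := Subset.antisymm e1 e2
  have hdp : ∀ t ∈ US G S₁ c₁, dp G S₁ t = dp G S₂ t := by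
    intro t ht
    unfold dp
    congr 1
    ext w
    rw [mem_NS, mem_NS]
    constructor
    · rintro ⟨h3, h4⟩
      exact ⟨h3, ha w (hcl1 t ht w h3 h4)⟩
    · rintro ⟨h3, h4⟩
      exact ⟨h3, hb w (hcl2 t (hBB ▸ ht) w h3 h4)⟩
  have hcard : dp G S₁ c₁ = dp G S₂ c₂ := by
    have h3 := card_US (G := G) hc1
    have h4 := card_US (G := G) hc2
    rw [hBB] at h3
    omega
  have hx1 : x₁ ∈ US G S₁ c₁ := mem_US_comm h1.1 h1.2.1
  have hx2 : x₂ ∈ US G S₂ c₂ := mem_US_comm h2.1 h2.2.1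
  have hc1B : c₁ ∈ US G S₁ c₁ := self_mem_US hc1
  have hc2B : c₂ ∈ US G S₂ c₂ := self_mem_US hc2
  -- `c₂` is a candidate for `x₁` and conversely
  have m1 : c₂ ∈ US G S₁ x₁ := by
    have hx1' : x₁ ∈ US G S₂ c₂ := e1 hx1
    rw [mem_US] at hx1'
    rw [mem_US]
    refine ⟨?_, hb c₂ hc2B⟩
    rcases hx1'.1 with h | h
    · exact Or.inl h.symm
    · exact Or.inr h.symm
  have m2 : c₁ ∈ US G S₂ x₂ := by
    have hx2' : x₂ ∈ US G S₁ c₁ := e2 hx2
    rw [mem_US] at hx2'
    rw [mem_US]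
    refine ⟨?_, ha c₁ hc1B⟩
    rcases hx2'.1 with h | h
    · exact Or.inl h.symm
    · exact Or.inr h.symm
  have n1 : num c₁ ≤ num c₂ := by
    rcases h1.2.2 c₂ m1 with h | h
    · exfalso
      have := hdp c₂ (hBB ▸ hc2B)
      omega
    · exact h.2
  have n2 : num c₂ ≤ num c₁ := by
    rcases h2.2.2 c₁ m2 with h | h
    · exfalso
      have := hdp c₁ hc1B
      omega
    · exact h.2
  refine ⟨hnum (le_antisymm n1 n2), hBB, ?_⟩
  intro u hu s hus hs
  constructor
  · by_contra h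
    exact hs (hcl1 u hu s hus h)
  · by_contra h
    exact hs (hBB ▸ hcl2 u (hBB ▸ hu) s hus h)

/-- a component of `G - A` which avoids `B` and whose neighbours in `A` lie in `B` is a component
of `G - B` -/
theorem rc_transfer {G : SimpleGraph V} {A B : Finset V} {x : V} (hx : x ∉ A)
    (h1 : ∀ v, Rc G A x v → v ∉ B) (h2 : ∀ v w, Rc G A x v → G.Adj v w → w ∈ A → w ∈ B) (v : V) :
    Rc G A x v ↔ Rc G B x v := by
  constructor
  · intro h
    have := h.closed (fun u => Rc G A x u ∧ Rc G B x u) ⟨Rc.refl _ _ _, Rc.refl _ _ _⟩ ?_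
    · exact this.2
    · rintro a b ⟨ha, ha'⟩ hab haA hbA
      have hb : Rc G A x b := ha.trans (Rc.adj hab haA hbA)
      exact ⟨hb, ha'.trans (Rc.adj hab (h1 a ha) (h1 b hb))⟩
  · intro h
    refine h.closed (fun u => Rc G A x u) (Rc.refl _ _ _) ?_
    intro a b ha hab haB hbB
    have haA : a ∉ A := ha.notMem hx
    have hbA : b ∉ A := fun hb => hbB (h2 a b ha hab hb)
    exact ha.trans (Rc.adj hab haA hbA)

theorem dom_transfer {G : SimpleGraph V} {A B : Finset V} {x : V} (hx : x ∉ A)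
    (h1 : ∀ v, Rc G A x v → v ∉ B) (h2 : ∀ v w, Rc G A x v → G.Adj v w → w ∈ A → w ∈ B) :
    Dom G A x ↔ Dom G B x := by
  have h := rc_transfer hx h1 h2
  constructor
  · rintro ⟨t, ht1, ht2, ht3⟩
    exact ⟨t, h1 t ht2, (h t).1 ht2, fun y hy => ht3 y ((h y).2 hy)⟩
  · rintro ⟨t, ht1, ht2, ht3⟩
    have ht2' := (h t).2 ht2
    exact ⟨t, ht2'.notMem hx, ht2', fun y hy => ht3 y ((h y).1 hy)⟩

theorem degree_le {G : SimpleGraph V} (S : Finset V) (x : V) :
    (NS G ∅ x).card ≤ dp G S x + S.card := by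
  have : NS G ∅ x ⊆ NS G S x ∪ S := by
    intro y hy
    rw [mem_NS] at hy
    rw [mem_union, mem_NS]
    by_cases h : y ∈ S
    · exact Or.inr h
    · exact Or.inl ⟨hy.1, h⟩
  exact (card_le_card this).trans (card_union_le _ _)

/-- the component of `y` in `G - A` has all its neighbours in `B` and avoids `B` -/
def Isolated (G : SimpleGraph V) (A B : Finset V) (y : V) : Prop :=
  (∀ v, Rc G A y v → v ∉ B) ∧ (∀ v w, Rc G A y v → G.Adj v w → w ∈ A → w ∈ B)

/-- the table of undominated components of `G - A` (given by one vertex each): every undominated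
component is listed, or `k + 1` different undominated components with the same neighbours are -/
def TableSpec (G : SimpleGraph V) (A : Finset V) (k : ℕ) (TB : V → Prop) : Prop :=
  ∀ y, y ∉ A → ¬ Dom G A y → (∃ z, TB z ∧ Rc G A y z) ∨
    ∃ f : Fin (k + 1) → V, (∀ i, TB (f i) ∧ f i ∉ A ∧ ¬ Dom G A (f i)) ∧
      (∀ i j, i ≠ j → ¬ Rc G A (f i) (f j)) ∧
      (∀ i, ∀ v w, Rc G A (f i) v → G.Adj v w → w ∈ A → ∃ v', Rc G A y v' ∧ G.Adj v' w)

/-- (10) completeness of the work at a node: `A` is the set of giants -/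
theorem node_complete {G : SimpleGraph V} {k δ : ℕ} {S' A : Finset V} {TB : V → Prop}
    (hk : S'.card ≤ k) (hA : ∀ v ∈ A, δ + k ≤ (NS G ∅ v).card) (hTB : TableSpec G A k TB)
    (hbig : ∀ x, x ∉ S' → δ ≤ dp G S' x → Dom G S' x)
    (hlow : ∀ s ∈ S', s ∉ A → ∀ y, G.Adj s y → y ∉ S' → (NS G ∅ y).card < δ + k → Dom G S' y)
    (htab : ∀ y, TB y → y ∉ A → Isolated G A S' y → Dom G S' y) :
    ∀ x, x ∉ S' → Dom G S' x := by
  intro x hx
  by_contra hnd
  -- all vertices of the component are small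
  have hund : ∀ v, Rc G S' x v → ¬ Dom G S' v := fun v hv h => hnd (h.rc hv.symm)
  have hsmall : ∀ v, Rc G S' x v → (NS G ∅ v).card < δ + k := by
    intro v hv
    have h1 : dp G S' v < δ := by
      by_contra h
      exact hund v hv (hbig v (hv.notMem hx) (by omega))
    have := degree_le (G := G) S' v
    omega
  have hvA : ∀ v, Rc G S' x v → v ∉ A := fun v hv h => by
    have h1 := hA v h
    have h2 := hsmall v hv
    omega
  have hadjS : ∀ v w, Rc G S' x v → G.Adj v w → w ∈ S' → w ∈ A := by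
    intro v w hv hvw hw
    by_contra hwA
    exact hund v hv (hlow w hw hwA v hvw.symm (hv.notMem hx) (hsmall v hv))
  have htr := rc_transfer (G := G) hx hvA hadjS
  have hdt := dom_transfer (G := G) hx hvA hadjS
  have hxA : x ∉ A := hvA x (Rc.refl _ _ _)
  have hndA : ¬ Dom G A x := fun h => hnd (hdt.2 h)
  -- neighbours in `A` of the component are in `S'`
  have hadjA : ∀ v w, Rc G A x v → G.Adj v w → w ∈ A → w ∈ S' := by
    intro v w hv hvw hw
    by_contra hwS
    have hv' := (htr v).2 hv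
    exact hvA w (hv'.trans (Rc.adj hvw (hv'.notMem hx) hwS)) hw
  rcases hTB x hxA hndA with ⟨z, hz1, hz2⟩ | ⟨f, hf1, hf2, hf3⟩
  · have hiso : Isolated G A S' z := by
      constructor
      · intro v hv
        exact ((htr v).2 (hz2.trans hv)).notMem hx
      · intro v w hv hvw hw
        exact hadjA v w (hz2.trans hv) hvw hw
    have := htab z hz1 (hz2.notMem hxA) hiso
    exact hund z ((htr z).2 hz2) this
  · -- one of the `k + 1` components avoids `S'`
    have hex : ∃ i, ∀ v, Rc G A (f i) v → v ∉ S' := by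
      by_contra hcon
      push Not at hcon
      choose g hg1 hg2 using hcon
      have hinj : Function.Injective g := by
        intro i j hij
        by_contra hne
        exact hf2 i j hne ((hg1 i).trans (hij ▸ (hg1 j).symm))
      have h1 : (univ.image g) ⊆ S' := by
        intro v hv
        rw [mem_image] at hv
        obtain ⟨i, _, rfl⟩ := hv
        exact hg2 i
      have h2 := card_le_card h1
      rw [card_image_of_injective _ hinj, card_univ, Fintype.card_fin] at h2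
      omega
    obtain ⟨i, hi⟩ := hex
    have hiso : Isolated G A S' (f i) := by
      refine ⟨hi, ?_⟩
      intro v w hv hvw hw
      obtain ⟨v', hv', hv'w⟩ := hf3 i v w hv hvw hw
      exact hadjA v' w hv' hv'w hw
    have h3 := htab (f i) (hf1 i).1 (hf1 i).2.1 hiso
    exact (hf1 i).2.2 ((dom_transfer (hf1 i).2.1 hiso.1 hiso.2).2 h3)

end Pool.Agent.TL56
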